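import Pool.Agent.Helper24.GT.Defs

namespace Helper24.GT

/-- `p` places the vertices of `G` in the plane as a geometric drawing: different vertices get
different points, and no edge (closed segment) passes through a vertex other than its two
endpoints. -/
def IsGeometricDrawing {V : Type*} (G : SimpleGraph V) (p : V → ℝ × ℝ) : Prop :=
  Function.Injective p ∧
    ∀ a b : V, G.Adj a b → ∀ v : V, v ≠ a → v ≠ b → p v ∉ segment ℝ (p a) (p b)

/-- The segments `p a, p b` and `p c, p d` share a point that is not a common endpoint of the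
edges `ab` and `cd`. -/
def Cross {V : Type*} (p : V → ℝ × ℝ) (a b c d : V) : Prop :=
  ∃ x : ℝ × ℝ, x ∈ segment ℝ (p a) (p b) ∧ x ∈ segment ℝ (p c) (p d) ∧
    ¬ ∃ v : V, (v = a ∨ v = b) ∧ (v = c ∨ v = d) ∧ x = p v

/-- `G` has a geometric drawing whose edges can be coloured with `k` colours so that no two
different edges of the same colour cross. -/
def DrawableIn {V : Type*} (G : SimpleGraph V) (k : ℕ) : Prop :=
  ∃ (p : V → ℝ × ℝ) (col : Sym2 V → Fin k), IsGeometricDrawing G p ∧
    ∀ a b c d : V, G.Adj a b → G.Adj c d → s(a, b) ≠ s(c, d) → col s(a, b) = col s(c, d) →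
      ¬ Cross p a b c d

/-- The geometric thickness: the least `k` such that `G` is drawable in `k` plane layers. -/
noncomputable def geometricThickness {V : Type*} (G : SimpleGraph V) : ℕ :=
  sInf {k : ℕ | DrawableIn G k}

/-- Linear functional with generic slope. -/
theorem D_exists_eps {V : Type*} [Fintype V] {p : V → ℝ × ℝ} (hp : Function.Injective p) :
    ∃ ε : ℝ, Function.Injective (fun v => (p v).1 + ε * (p v).2) := by
  classical
  let f : V × V → ℝ := fun q => -((p q.1).1 - (p q.2).1) / ((p q.1).2 - (p q.2).2)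
  obtain ⟨ε, hε⟩ := (Set.finite_range f).infinite_compl.nonempty
  refine ⟨ε, ?_⟩
  intro u v huv
  by_contra hne
  have huv' : (p u).1 + ε * (p u).2 = (p v).1 + ε * (p v).2 := huv
  by_cases hy : (p u).2 = (p v).2
  · rw [hy] at huv'
    have hx : (p u).1 = (p v).1 := by linarith
    exact hne (hp (Prod.ext hx hy))
  · apply hε
    refine ⟨(u, v), ?_⟩
    have h1 : (p u).2 - (p v).2 ≠ 0 := sub_ne_zero.2 hy
    change -((p u).1 - (p v).1) / ((p u).2 - (p v).2) = ε
    rw [div_eq_iff h1]
    linarith

theorem D_key {V : Type*} {p : V → ℝ × ℝ} {ε : ℝ}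
    (hnt : ∀ a b : V, a ≠ b → ∀ v : V, v ≠ a → v ≠ b → p v ∉ segment ℝ (p a) (p b))
    {a b c : V} (hab : (p a).1 + ε * (p a).2 < (p b).1 + ε * (p b).2)
    (hbc : (p b).1 + ε * (p b).2 < (p c).1 + ε * (p c).2) :
    ((p b).1 + ε * (p b).2 - ((p a).1 + ε * (p a).2)) * ((p c).2 - (p a).2) -
      ((p c).1 + ε * (p c).2 - ((p a).1 + ε * (p a).2)) * ((p b).2 - (p a).2) ≠ 0 := by
  intro h0
  have hac : a ≠ c := by rintro rfl; linarith
  have hba : b ≠ a := by rintro rfl; linarith
  have hbc' : b ≠ c := by rintro rfl; linarith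
  have hD : 0 < (p c).1 + ε * (p c).2 - ((p a).1 + ε * (p a).2) := by linarith
  set D := (p c).1 + ε * (p c).2 - ((p a).1 + ε * (p a).2) with hDdef
  set E := (p b).1 + ε * (p b).2 - ((p a).1 + ε * (p a).2) with hEdef
  have hE : 0 < E := by rw [hEdef]; linarith
  have hED : E < D := by rw [hEdef, hDdef]; linarith
  apply hnt a c hac b hba hbc'
  refine ⟨1 - E / D, E / D, ?_, ?_, by ring, ?_⟩
  · rw [sub_nonneg, div_le_one hD]; exact hED.le
  · exact div_nonneg hE.le hD.le
  · have hW : (p b).2 - (p a).2 = E / D * ((p c).2 - (p a).2) := by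
      rw [div_mul_eq_mul_div, eq_div_iff hD.ne']
      linarith
    have hX : E = E / D * D := by field_simp
    have h1 : (p b).1 - (p a).1 = E / D * ((p c).1 - (p a).1) := by
      have h2 : (p b).1 - (p a).1 + ε * ((p b).2 - (p a).2) =
          E / D * ((p c).1 - (p a).1 + ε * ((p c).2 - (p a).2)) := by
        have h3 : (p b).1 - (p a).1 + ε * ((p b).2 - (p a).2) = E := by rw [hEdef]; ring
        have h4 : (p c).1 - (p a).1 + ε * ((p c).2 - (p a).2) = D := by rw [hDdef]; ring
        rw [h3, h4]; exact hX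
      rw [hW] at h2
      linarith
    apply Prod.ext
    · simp only [Prod.fst_add, Prod.smul_fst, smul_eq_mul]
      linarith
    · simp only [Prod.snd_add, Prod.smul_snd, smul_eq_mul]
      linarith

/-- A drawing of the complete graph in `t` layers gives coordinates with injective `X`. -/
theorem exists_coordinates {V : Type*} [Fintype V] {t : ℕ}
    (h : DrawableIn (⊤ : SimpleGraph V) t) :
    ∃ (X W : V → ℝ) (L : Fin t → SimpleGraph V), Function.Injective X ∧ GP X W ∧
      (∀ i, Pln X W (L i)) ∧ (∀ u v : V, u ≠ v → ∃ i, (L i).Adj u v) ∧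
      (∀ u v : V, ∀ i j, (L i).Adj u v → (L j).Adj u v → i = j) := by
  obtain ⟨p, col, ⟨hinj, hnt⟩, hcol⟩ := h
  obtain ⟨ε, hε⟩ := D_exists_eps hinj
  have hnt' : ∀ a b : V, a ≠ b → ∀ v : V, v ≠ a → v ≠ b → p v ∉ segment ℝ (p a) (p b) := by
    intro a b hab v hva hvb
    exact hnt a b ((SimpleGraph.top_adj a b).2 hab) v hva hvb
  refine ⟨fun v => (p v).1 + ε * (p v).2, fun v => (p v).2,
    fun i => { Adj := fun u v => u ≠ v ∧ col s(u, v) = i,
               symm := ⟨fun u v h => ⟨h.1.symm, by rw [Sym2.eq_swap]; exact h.2⟩⟩,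
               loopless := ⟨fun u h => h.1 rfl⟩ }, hε, ?_, ?_, ?_, ?_⟩
  · intro a b c hab hac hbc h0
    have n1 : (p a).1 + ε * (p a).2 ≠ (p b).1 + ε * (p b).2 := fun e => hab (hε e)
    have n2 : (p a).1 + ε * (p a).2 ≠ (p c).1 + ε * (p c).2 := fun e => hac (hε e)
    have n3 : (p b).1 + ε * (p b).2 ≠ (p c).1 + ε * (p c).2 := fun e => hbc (hε e)
    rcases lt_or_gt_of_ne n1 with h1 | h1 <;> rcases lt_or_gt_of_ne n2 with h2 | h2 <;>
      rcases lt_or_gt_of_ne n3 with h3 | h3
    · exact D_key hnt' h1 h3 (by linear_combination h0)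
    · exact D_key hnt' h2 h3 (by linear_combination -h0)
    · linarith
    · exact D_key hnt' h2 h1 (by linear_combination h0)
    · exact D_key hnt' h1 h2 (by linear_combination -h0)
    · linarith
    · exact D_key hnt' h3 h2 (by linear_combination h0)
    · exact D_key hnt' h3 h1 (by linear_combination -h0)
  · intro i a b c d hab hcd hac had hbc hbd α β hα hα' hβ hβ' hx hy
    have hne : s(a, b) ≠ s(c, d) := by
      intro e
      rw [Sym2.eq_iff] at e
      rcases e with ⟨e1, _⟩ | ⟨e1, _⟩
      · exact hac e1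
      · exact had e1
    refine hcol a b c d ((SimpleGraph.top_adj a b).2 hab.1) ((SimpleGraph.top_adj c d).2 hcd.1)
      hne (hab.2.trans hcd.2.symm) ⟨(1 - α) • p a + α • p b, ?_, ?_, ?_⟩
    · exact ⟨1 - α, α, by linarith, hα, by ring, rfl⟩
    · refine ⟨1 - β, β, by linarith, hβ, by ring, ?_⟩
      apply Prod.ext
      · simp only [Prod.fst_add, Prod.smul_fst, smul_eq_mul]
        simp only at hx hy
        linear_combination -hx + ε * hy
      · simp only [Prod.snd_add, Prod.smul_snd, smul_eq_mul]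
        simp only at hx hy
        linear_combination -hy
    · rintro ⟨v, h1, h2, -⟩
      rcases h1 with rfl | rfl <;> rcases h2 with e | e
      · exact hac e
      · exact had e
      · exact hbc e
      · exact hbd e
  · intro u v huv
    exact ⟨col s(u, v), huv, rfl⟩
  · intro u v i j hi hj
    exact hi.2.symm.trans hj.2

end Helper24.GT
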