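import Mathlib

/-!
# Geometric thickness of `K_n`: basic notions (MP_7c440d_co)

A point set is given by two coordinate functions `X Y : V → ℝ`.  All notions are invariant under
linear changes of the pair `(X, Y)`.
-/

namespace Helper24.GT

noncomputable section

open Classical

variable {V : Type*}

/-- General position: no three vertices are collinear. -/
def GP (X Y : V → ℝ) : Prop :=
  ∀ a b c : V, a ≠ b → a ≠ c → b ≠ c →
    (X b - X a) * (Y c - Y a) - (X c - X a) * (Y b - Y a) ≠ 0

/-- Edges of `G` without a common endpoint do not meet. -/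
def Pln (X Y : V → ℝ) (G : SimpleGraph V) : Prop :=
  ∀ a b c d : V, G.Adj a b → G.Adj c d → a ≠ c → a ≠ d → b ≠ c → b ≠ d →
    ∀ α β : ℝ, 0 ≤ α → α ≤ 1 → 0 ≤ β → β ≤ 1 →
      (1 - α) * X a + α * X b = (1 - β) * X c + β * X d →
      (1 - α) * Y a + α * Y b ≠ (1 - β) * Y c + β * Y d

/-- `v` is pointed in `G`: all its neighbours lie in an open half-plane whose boundary line
passes through `v`. -/
def Pointed (X Y : V → ℝ) (G : SimpleGraph V) (v : V) : Prop :=
  ∃ α β : ℝ, ∀ u : V, G.Adj v u → 0 < α * (X u - X v) + β * (Y u - Y v)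

/-- Number of vertices with property `P`. -/
def cnt [Fintype V] (P : V → Prop) : ℕ := (Finset.univ.filter P).card

/-- Rank of `v` with respect to `X`: the number of vertices with smaller `X`. -/
def rk [Fintype V] (X : V → ℝ) (v : V) : ℕ := cnt (fun u => X u < X v)

/-- Number of vertices to the south-west of `v`. -/
def mm [Fintype V] (X Y : V → ℝ) (v : V) : ℕ := cnt (fun u => X u < X v ∧ Y u < Y v)

/-- Number of layers in which `v` is not pointed. -/
def np {t : ℕ} (X Y : V → ℝ) (L : Fin t → SimpleGraph V) (v : V) : ℕ :=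
  (Finset.univ.filter (fun i => ¬ Pointed X Y (L i) v)).card

/-- The complete graph on `V`, drawn with straight edges in coordinates `X`, `Y`, is split into
`t` plane layers `L i`. -/
structure Layered {t : ℕ} (X Y : V → ℝ) (L : Fin t → SimpleGraph V) : Prop where
  injX : Function.Injective X
  injY : Function.Injective Y
  gp : GP X Y
  pln : ∀ i, Pln X Y (L i)
  cover : ∀ u v : V, u ≠ v → ∃ i, (L i).Adj u v
  disj : ∀ u v : V, ∀ i j, (L i).Adj u v → (L j).Adj u v → i = j

/-- Height of the line through the vertices `a` and `b` at abscissa `x`. -/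
def ht (X Y : V → ℝ) (a b : V) (x : ℝ) : ℝ := Y a + (Y b - Y a) / (X b - X a) * (x - X a)

/-- Slope of the line through the vertices `a` and `b`. -/
def slp (X Y : V → ℝ) (a b : V) : ℝ := (Y b - Y a) / (X b - X a)

/-- Number of descents of a list. -/
def desc : List ℝ → ℕ
  | [] => 0
  | [_] => 0
  | a :: b :: l => (if b < a then 1 else 0) + desc (b :: l)

/-- `l` lists, from bottom to top, the edges of `G` which cross the vertical line at abscissa
`s`; each edge is given as (left end, right end). -/
structure IsSlab (X Y : V → ℝ) (G : SimpleGraph V) (s : ℝ) (l : List (V × V)) : Prop where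
  mem : ∀ e : V × V, e ∈ l ↔ G.Adj e.1 e.2 ∧ X e.1 < s ∧ s < X e.2
  sorted : l.Pairwise (fun e f => ht X Y e.1 e.2 s < ht X Y f.1 f.2 s)

/-- Number of left neighbours. -/
def dL [Fintype V] (X : V → ℝ) (G : SimpleGraph V) (v : V) : ℕ :=
  cnt (fun u => G.Adj v u ∧ X u < X v)

/-- Number of right neighbours. -/
def dR [Fintype V] (X : V → ℝ) (G : SimpleGraph V) (v : V) : ℕ :=
  cnt (fun u => G.Adj v u ∧ X v < X u)

/-- Number of new descents which the passage of `v` may create. -/
def slot [Fintype V] (X Y : V → ℝ) (G : SimpleGraph V) (v : V) : ℕ :=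
  if dR X G v = 0 then 1 else if dL X G v ≠ 0 ∧ Pointed X Y G v then 1 else 2

/-! ### Linear changes of coordinates -/

theorem GP.lin {X Y : V → ℝ} (h : GP X Y) {p q r s : ℝ} (hd : p * s - q * r ≠ 0) :
    GP (fun v => p * X v + q * Y v) (fun v => r * X v + s * Y v) := by
  intro a b c hab hac hbc hz
  have h1 := h a b c hab hac hbc
  apply h1
  have : (p * s - q * r) * ((X b - X a) * (Y c - Y a) - (X c - X a) * (Y b - Y a)) = 0 := by
    rw [← hz]; ring
  rcases mul_eq_zero.1 this with h2 | h2
  · exact absurd h2 hd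
  · exact h2

theorem Pln.lin {X Y : V → ℝ} {G : SimpleGraph V} (h : Pln X Y G) {p q r s : ℝ}
    (hd : p * s - q * r ≠ 0) :
    Pln (fun v => p * X v + q * Y v) (fun v => r * X v + s * Y v) G := by
  intro a b c d h1 h2 hac had hbc hbd α β hα hα' hβ hβ' hx hy
  set u := (1 - α) * X a + α * X b - ((1 - β) * X c + β * X d) with hu
  set v := (1 - α) * Y a + α * Y b - ((1 - β) * Y c + β * Y d) with hv
  have e1 : p * u + q * v = 0 := by
    rw [hu, hv]; linear_combination hx
  have e2 : r * u + s * v = 0 := by
    rw [hu, hv]; linear_combination hy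
  have e3 : (p * s - q * r) * u = 0 := by linear_combination s * e1 - q * e2
  have e4 : (p * s - q * r) * v = 0 := by linear_combination p * e2 - r * e1
  have e5 : u = 0 := (mul_eq_zero.1 e3).resolve_left hd
  have e6 : v = 0 := (mul_eq_zero.1 e4).resolve_left hd
  exact h a b c d h1 h2 hac had hbc hbd α β hα hα' hβ hβ' (by linarith) (by linarith)

theorem Pointed.lin {X Y : V → ℝ} {G : SimpleGraph V} {v : V} (h : Pointed X Y G v)
    {p q r s : ℝ} (hd : p * s - q * r ≠ 0) :
    Pointed (fun v => p * X v + q * Y v) (fun v => r * X v + s * Y v) G v := by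
  obtain ⟨α, β, h⟩ := h
  refine ⟨(α * s - β * r) / (p * s - q * r), (β * p - α * q) / (p * s - q * r), ?_⟩
  intro u hu
  have h1 := h u hu
  have : (α * s - β * r) / (p * s - q * r) * (p * X u + q * Y u - (p * X v + q * Y v)) +
      (β * p - α * q) / (p * s - q * r) * (r * X u + s * Y u - (r * X v + s * Y v)) =
      α * (X u - X v) + β * (Y u - Y v) := by
    rw [div_mul_eq_mul_div, div_mul_eq_mul_div, ← add_div, div_eq_iff hd]
    ring
  rw [this]; exact h1

theorem pointed_lin_iff {X Y : V → ℝ} {G : SimpleGraph V} {v : V}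
    {p q r s : ℝ} (hd : p * s - q * r ≠ 0) :
    Pointed (fun v => p * X v + q * Y v) (fun v => r * X v + s * Y v) G v ↔ Pointed X Y G v := by
  constructor
  · intro h
    obtain ⟨α, β, h⟩ := h
    refine ⟨α * p + β * r, α * q + β * s, ?_⟩
    intro u hu
    have h1 := h u hu
    have : (α * p + β * r) * (X u - X v) + (α * q + β * s) * (Y u - Y v) =
      α * (p * X u + q * Y u - (p * X v + q * Y v)) +
        β * (r * X u + s * Y u - (r * X v + s * Y v)) := by ring
    rw [this]; exact h1
  · intro h; exact h.lin hd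

theorem np_lin {t : ℕ} {X Y : V → ℝ} {L : Fin t → SimpleGraph V} {v : V}
    {p q r s : ℝ} (hd : p * s - q * r ≠ 0) :
    np (fun v => p * X v + q * Y v) (fun v => r * X v + s * Y v) L v = np X Y L v := by
  unfold np
  simp only [pointed_lin_iff hd]

/-- Shear: replace `Y` by `Y + s X`. -/
theorem Layered.shear {t : ℕ} {X Y : V → ℝ} {L : Fin t → SimpleGraph V} (s : ℝ)
    (hX : Function.Injective X) (hgp : GP X Y) (hp : ∀ i, Pln X Y (L i))
    (hc : ∀ u v : V, u ≠ v → ∃ i, (L i).Adj u v)
    (hd : ∀ u v : V, ∀ i j, (L i).Adj u v → (L j).Adj u v → i = j)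
    (hY : Function.Injective (fun v => Y v + s * X v)) :
    Layered X (fun v => Y v + s * X v) L where
  injX := hX
  injY := hY
  gp := by
    have := hgp.lin (p := 1) (q := 0) (r := s) (s := 1) (by norm_num)
    simpa [add_comm] using this
  pln := by
    intro i
    have := (hp i).lin (p := 1) (q := 0) (r := s) (s := 1) (by norm_num)
    simpa [add_comm] using this
  cover := hc
  disj := hd

theorem Layered.negX {t : ℕ} {X Y : V → ℝ} {L : Fin t → SimpleGraph V} (h : Layered X Y L) :
    Layered (fun v => - X v) Y L where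
  injX := fun a b hab => h.injX (neg_injective hab)
  injY := h.injY
  gp := by
    have := h.gp.lin (p := -1) (q := 0) (r := 0) (s := 1) (by norm_num)
    simpa using this
  pln := by
    intro i
    have := (h.pln i).lin (p := -1) (q := 0) (r := 0) (s := 1) (by norm_num)
    simpa using this
  cover := h.cover
  disj := h.disj

theorem Layered.negY {t : ℕ} {X Y : V → ℝ} {L : Fin t → SimpleGraph V} (h : Layered X Y L) :
    Layered X (fun v => - Y v) L where
  injX := h.injX
  injY := fun a b hab => h.injY (neg_injective hab)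
  gp := by
    have := h.gp.lin (p := 1) (q := 0) (r := 0) (s := -1) (by norm_num)
    simpa using this
  pln := by
    intro i
    have := (h.pln i).lin (p := 1) (q := 0) (r := 0) (s := -1) (by norm_num)
    simpa using this
  cover := h.cover
  disj := h.disj

theorem np_negX {t : ℕ} {X Y : V → ℝ} {L : Fin t → SimpleGraph V} {v : V} :
    np (fun v => - X v) Y L v = np X Y L v := by
  have := np_lin (X := X) (Y := Y) (L := L) (v := v) (p := -1) (q := 0) (r := 0) (s := 1)
    (by norm_num)
  simpa using this

theorem np_negY {t : ℕ} {X Y : V → ℝ} {L : Fin t → SimpleGraph V} {v : V} :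
    np X (fun v => - Y v) L v = np X Y L v := by
  have := np_lin (X := X) (Y := Y) (L := L) (v := v) (p := 1) (q := 0) (r := 0) (s := -1)
    (by norm_num)
  simpa using this

/-- A vertex that is not pointed has a neighbour on each side of every line `X = const`. -/
theorem exists_lt_of_not_pointed {X Y : V → ℝ} (hX : Function.Injective X) {G : SimpleGraph V}
    {v : V} (h : ¬ Pointed X Y G v) : ∃ u, G.Adj v u ∧ X u < X v := by
  by_contra hc
  push Not at hc
  apply h
  refine ⟨1, 0, ?_⟩
  intro u hu
  have h1 := hc u hu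
  have h2 : X u ≠ X v := fun e => hu.ne (hX e).symm
  have h3 : X v < X u := lt_of_le_of_ne h1 h2.symm
  simp only [one_mul, zero_mul, add_zero]
  linarith

theorem exists_gt_of_not_pointed {X Y : V → ℝ} (hX : Function.Injective X) {G : SimpleGraph V}
    {v : V} (h : ¬ Pointed X Y G v) : ∃ u, G.Adj v u ∧ X v < X u := by
  by_contra hc
  push Not at hc
  apply h
  refine ⟨-1, 0, ?_⟩
  intro u hu
  have h1 := hc u hu
  have h2 : X u ≠ X v := fun e => hu.ne (hX e).symm
  have h3 : X u < X v := lt_of_le_of_ne h1 h2
  simp only [neg_mul, one_mul, zero_mul, add_zero]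
  linarith

theorem exists_below_of_not_pointed {X Y : V → ℝ} (hY : Function.Injective Y)
    {G : SimpleGraph V} {v : V} (h : ¬ Pointed X Y G v) : ∃ u, G.Adj v u ∧ Y u < Y v := by
  by_contra hc
  push Not at hc
  apply h
  refine ⟨0, 1, ?_⟩
  intro u hu
  have h1 := hc u hu
  have h2 : Y u ≠ Y v := fun e => hu.ne (hY e).symm
  have h3 : Y v < Y u := lt_of_le_of_ne h1 h2.symm
  simp only [one_mul, zero_mul, zero_add]
  linarith

theorem exists_above_of_not_pointed {X Y : V → ℝ} (hY : Function.Injective Y)
    {G : SimpleGraph V} {v : V} (h : ¬ Pointed X Y G v) : ∃ u, G.Adj v u ∧ Y v < Y u := by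
  by_contra hc
  push Not at hc
  apply h
  refine ⟨0, -1, ?_⟩
  intro u hu
  have h1 := hc u hu
  have h2 : Y u ≠ Y v := fun e => hu.ne (hY e).symm
  have h3 : Y u < Y v := lt_of_le_of_ne h1 h2
  simp only [neg_mul, one_mul, zero_mul, zero_add]
  linarith

/-! ### Heights -/

theorem ht_left (X Y : V → ℝ) (a b : V) : ht X Y a b (X a) = Y a := by simp [ht]

theorem ht_right {X Y : V → ℝ} {a b : V} (h : X a < X b) : ht X Y a b (X b) = Y b := by
  have : X b - X a ≠ 0 := by linarith
  simp only [ht]
  field_simp
  ring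

theorem ht_eq_slp (X Y : V → ℝ) (a b : V) (x : ℝ) :
    ht X Y a b x = Y a + slp X Y a b * (x - X a) := rfl

theorem ht_continuous (X Y : V → ℝ) (a b : V) : Continuous (ht X Y a b) := by
  unfold ht; fun_prop

/-- Disjoint edges have different heights on the common part of their abscissa ranges. -/
theorem pln_ht {X Y : V → ℝ} {G : SimpleGraph V} (hG : Pln X Y G) {a b c d : V}
    (h1 : G.Adj a b) (h2 : G.Adj c d) (hac : a ≠ c) (had : a ≠ d) (hbc : b ≠ c) (hbd : b ≠ d)
    (hab : X a < X b) (hcd : X c < X d) {x : ℝ} (ha : X a ≤ x) (hb : x ≤ X b) (hc : X c ≤ x)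
    (hd : x ≤ X d) : ht X Y a b x ≠ ht X Y c d x := by
  intro he
  have e1 : X b - X a ≠ 0 := by linarith
  have e2 : X d - X c ≠ 0 := by linarith
  have p1 : 0 < X b - X a := by linarith
  have p2 : 0 < X d - X c := by linarith
  refine hG a b c d h1 h2 hac had hbc hbd ((x - X a) / (X b - X a)) ((x - X c) / (X d - X c))
    (div_nonneg (by linarith) p1.le) ((div_le_one p1).2 (by linarith))
    (div_nonneg (by linarith) p2.le) ((div_le_one p2).2 (by linarith)) ?_ ?_
  · field_simp
    ring
  · have h3 : (1 - (x - X a) / (X b - X a)) * Y a + (x - X a) / (X b - X a) * Y b =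
        ht X Y a b x := by
      simp only [ht]; field_simp; ring
    have h4 : (1 - (x - X c) / (X d - X c)) * Y c + (x - X c) / (X d - X c) * Y d =
        ht X Y c d x := by
      simp only [ht]; field_simp; ring
    rw [h3, h4]; exact he

/-- No vertex lies on the line through two others. -/
theorem gp_ht {X Y : V → ℝ} (hgp : GP X Y) {a b c : V} (hab : X a < X b) (hac : a ≠ c)
    (hbc : b ≠ c) : ht X Y a b (X c) ≠ Y c := by
  intro he
  have hab' : a ≠ b := fun e => by rw [e] at hab; exact lt_irrefl _ hab
  apply hgp a b c hab' hac hbc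
  have e1 : X b - X a ≠ 0 := by linarith
  rw [← he]
  simp only [ht]
  field_simp
  ring

/-- Two distinct edges have different heights inside the common part of their ranges. -/
theorem ht_ne {X Y : V → ℝ} (hX : Function.Injective X) (hgp : GP X Y) {G : SimpleGraph V}
    (hG : Pln X Y G) {a b c d : V} (h1 : G.Adj a b) (h2 : G.Adj c d) (hne : (a, b) ≠ (c, d))
    {x : ℝ} (ha : X a < x) (hb : x < X b) (hc : X c < x) (hd : x < X d) :
    ht X Y a b x ≠ ht X Y c d x := by
  intro he
  have had : a ≠ d := fun e => by rw [e] at ha; exact lt_irrefl _ (ha.trans hd)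
  have hbc : b ≠ c := fun e => by rw [e] at hb; exact lt_irrefl _ (hb.trans hc)
  have e1 : X b - X a ≠ 0 := by linarith
  have e2 : X d - X c ≠ 0 := by linarith
  by_cases hac : a = c
  · subst hac
    have hbd : b ≠ d := fun e => hne (by rw [e])
    have e3 : x - X a ≠ 0 := by linarith
    have h3 : (Y b - Y a) / (X b - X a) = (Y d - Y a) / (X d - X a) := by
      simp only [ht, add_right_inj] at he
      exact mul_right_cancel₀ e3 he
    rw [div_eq_div_iff e1 e2] at h3
    exact hgp a b d h1.ne h2.ne hbd (by linarith)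
  · by_cases hbd : b = d
    · subst hbd
      have e3 : X b - x ≠ 0 := by linarith
      have h4 : ht X Y a b x = Y b - (Y b - Y a) / (X b - X a) * (X b - x) := by
        simp only [ht]; field_simp; ring
      have h5 : ht X Y c b x = Y b - (Y b - Y c) / (X b - X c) * (X b - x) := by
        simp only [ht]; field_simp; ring
      have h3 : (Y b - Y a) / (X b - X a) = (Y b - Y c) / (X b - X c) := by
        rw [h4, h5] at he
        have : (Y b - Y a) / (X b - X a) * (X b - x) = (Y b - Y c) / (X b - X c) * (X b - x) := by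
          linarith
        exact mul_right_cancel₀ e3 this
      rw [div_eq_div_iff e1 e2] at h3
      exact hgp a b c h1.ne hac h2.ne.symm (by linarith)
    · exact pln_ht hG h1 h2 hac had hbc hbd (ha.trans hb) (hc.trans hd) ha.le hb.le hc.le hd.le he

/-- The order of two edges does not change inside the common part of their ranges. -/
theorem ht_lt_of_ht_lt {X Y : V → ℝ} (hX : Function.Injective X) (hgp : GP X Y)
    {G : SimpleGraph V} (hG : Pln X Y G) {a b c d : V} (h1 : G.Adj a b) (h2 : G.Adj c d)
    {x y : ℝ} (ha : X a < x) (hb : x < X b) (hc : X c < x) (hd : x < X d)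
    (ha' : X a < y) (hb' : y < X b) (hc' : X c < y) (hd' : y < X d)
    (h : ht X Y a b x < ht X Y c d x) : ht X Y a b y < ht X Y c d y := by
  have hne : (a, b) ≠ (c, d) := by
    intro e
    have e1 : a = c := congrArg Prod.fst e
    have e2 : b = d := congrArg Prod.snd e
    subst e1; subst e2
    exact lt_irrefl _ h
  by_contra hcon
  push Not at hcon
  have hcont : Continuous (fun z => ht X Y c d z - ht X Y a b z) :=
    (ht_continuous X Y c d).sub (ht_continuous X Y a b)
  have h0x : 0 < ht X Y c d x - ht X Y a b x := by linarith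
  have h0y : ht X Y c d y - ht X Y a b y ≤ 0 := by linarith
  have hmem : (0 : ℝ) ∈ (fun z => ht X Y c d z - ht X Y a b z) '' Set.uIcc x y := by
    apply intermediate_value_uIcc hcont.continuousOn
    rw [Set.mem_uIcc]
    right
    exact ⟨h0y, h0x.le⟩
  obtain ⟨z, hz, hz0⟩ := hmem
  have hz0' : ht X Y a b z = ht X Y c d z := by
    have : ht X Y c d z - ht X Y a b z = 0 := hz0
    linarith
  rw [Set.mem_uIcc] at hz
  refine ht_ne hX hgp hG h1 h2 hne (x := z) ?_ ?_ ?_ ?_ hz0'
  · rcases hz with ⟨q1, q2⟩ | ⟨q1, q2⟩ <;> linarith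
  · rcases hz with ⟨q1, q2⟩ | ⟨q1, q2⟩ <;> linarith
  · rcases hz with ⟨q1, q2⟩ | ⟨q1, q2⟩ <;> linarith
  · rcases hz with ⟨q1, q2⟩ | ⟨q1, q2⟩ <;> linarith

end

end Helper24.GT
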